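import Pool.Agent.Helper13.Venn.Final

/-!
# MP_5b9478_co: the edge bound for simple Venn diagrams fails in dimension four

All definitions are in `Pool/Agent/Helper13/Venn/Defs.lean`.  The six surfaces are the
stereographic images of the zero sets, on the unit sphere of `ℝ^5`, of the six positively
homogeneous functions `g 0, ..., g 5` given there.
-/

namespace Pool.Agent.Results.MP_5b9478_co.TouchingSpheres

open Pool.Agent.Helper13.Venn

/-- There is a simple `4`-dimensional `6`-Venn diagram with at least `190` edges, whereas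
`4 * 2 ^ 6 + p_4(6) = 188`; so the inequality of Q1 fails. -/
theorem result :
    (∃ S : Fin 6 → Set (E 4), IsVenn 4 6 S ∧ IsSimpleDiagram 4 6 S ∧ (190 : ℕ∞) ≤ numEdges S ∧
      ∀ p : Polynomial ℝ, IsInterp 4 p → 4 * 2 ^ 6 + p.eval (6 : ℝ) = 188) ∧
    ¬ (∀ m n : ℕ, 3 ≤ m → 2 ≤ n → ∀ S : Fin n → Set (E m), IsVenn m n S → IsSimpleDiagram m n S →
      ∀ p : Polynomial ℝ, IsInterp m p →
        ∀ N : ℕ, (N : ℕ∞) ≤ numEdges S → (N : ℝ) ≤ m * 2 ^ n + p.eval (n : ℝ)) :=
  final_result

end Pool.Agent.Results.MP_5b9478_co.TouchingSpheres
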